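import Pool.Agent.helper96.PP2.SpecC

set_option autoImplicit false

namespace Pool.Agent.PP2

open Topology Matrix

/-- the binomial expansion up to the second order -/
theorem PRM_binom {R : Type} [CommRing R] (X : M2 R) (n : ℕ) :
    ∃ Y : M2 R, (1 + X) ^ n = 1 + (n : M2 R) * X + X * X * Y := by
  induction n with
  | zero => exact ⟨0, by simp⟩
  | succ n ih =>
      obtain ⟨Y, hY⟩ := ih
      refine ⟨(n : M2 R) + Y + Y * X, ?_⟩
      rw [pow_succ, hY]
      have hc : (n : M2 R) * X = X * (n : M2 R) := Nat.cast_commute n X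
      push_cast
      have e1 : (n : M2 R) * X * X = X * X * (n : M2 R) := by
        rw [hc, mul_assoc, hc, ← mul_assoc]
      calc (1 + (n : M2 R) * X + X * X * Y) * (1 + X)
          = 1 + ((n : M2 R) + 1) * X + ((n : M2 R) * X * X + X * X * Y + X * X * (Y * X)) := by
            noncomm_ring
        _ = 1 + ((n : M2 R) + 1) * X + X * X * ((n : M2 R) + Y + Y * X) := by
            rw [e1]
            noncomm_ring

/-- in a compact ring the powers of `p` are periodic modulo an open ideal -/
theorem PRM_period (p : ℕ) {R : Type} [CommRing R] [TopologicalSpace R] [IsTopologicalRing R] [CompactSpace R]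
    (I : Ideal R) (hI : IsOpen (I : Set R)) : ∃ a l : ℕ, 1 ≤ l ∧ (p : R) ^ a - (p : R) ^ (a + l) ∈ I := by
  have hfin : Finite (R ⧸ I.toAddSubgroup) := AddSubgroup.quotient_finite_of_isOpen I.toAddSubgroup hI
  obtain ⟨a, b, hab, he⟩ := Finite.exists_ne_map_eq_of_infinite
    (fun k : ℕ => (((p : R) ^ k : R) : R ⧸ I.toAddSubgroup))
  have he' : -((p : R) ^ a) + (p : R) ^ b ∈ I.toAddSubgroup := QuotientAddGroup.eq.1 he
  have he2 : -((p : R) ^ a) + (p : R) ^ b ∈ I := he'
  rcases lt_or_gt_of_ne hab with h | h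
  · refine ⟨a, b - a, by omega, ?_⟩
    rw [show a + (b - a) = b by omega]
    have := I.neg_mem he2
    rw [neg_add, neg_neg, ← sub_eq_add_neg] at this
    exact this
  · refine ⟨b, a - b, by omega, ?_⟩
    rw [show b + (a - b) = a by omega, sub_eq_add_neg, add_comm]
    exact he2

theorem PRM_row : PRM_stmt := by
  intro p R _ _ _ _ _ J _ hbasis hnil g hg hdiv htor
  obtain ⟨_, hgJ⟩ := (Lib_mem_Sg J g).1 hg
  obtain ⟨X, hX⟩ : ∃ X : M2 R, X = (g : M2 R) - 1 := ⟨_, rfl⟩
  have hg1 : (g : M2 R) = 1 + X := by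
    rw [hX]
    abel
  have hXJ : ∀ i j, X i j ∈ J := fun i j => by
    rw [hX]
    exact hgJ i j
  have hXp : ∀ (n : ℕ) (i j : Fin 2), X i j ∈ Ideal.span {(p : R) ^ n} := fun n i j => by
    rw [hX]
    exact hdiv n i j
  -- the claim for one open ideal
  have key : ∀ I : Ideal R, IsOpen (I : Set R) → ∀ i j : Fin 2, X i j ∈ I := by
    intro I hI
    obtain ⟨E, hE⟩ : ∃ E : Ideal R, E = Ideal.span (Set.range fun t : Fin 2 × Fin 2 => X t.1 t.2) := ⟨_, rfl⟩
    have hXE : ∀ i j, X i j ∈ E := fun i j => by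
      rw [hE]
      exact Ideal.subset_span ⟨(i, j), rfl⟩
    obtain ⟨n, hn⟩ := htor I hI
    obtain ⟨Y, hY⟩ := PRM_binom X (p ^ n)
    have hXX : ∀ i j, (X * X) i j ∈ J * E := by
      intro i j
      rw [Matrix.mul_apply]
      exact Ideal.sum_mem _ fun k _ => Ideal.mul_mem_mul (hXJ i k) (hXE k j)
    have hXXY : ∀ i j, (X * X * Y) i j ∈ J * E := by
      intro i j
      rw [Matrix.mul_apply]
      exact Ideal.sum_mem _ fun k _ => Ideal.mul_mem_right _ _ (hXX i k)
    have hPX : ∀ i j, (p : R) ^ n * X i j ∈ J * E ⊔ I := by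
      intro i j
      have h1 : ((g ^ (p ^ n) : GL (Fin 2) R) : M2 R) = (1 + X) ^ (p ^ n) := by
        rw [Units.val_pow_eq_pow_val, hg1]
      have h2 := hn i j
      rw [h1, hY] at h2
      have h3 : ((1 + ((p ^ n : ℕ) : M2 R) * X + X * X * Y) - 1 : M2 R) i j = (p : R) ^ n * X i j + (X * X * Y) i j := by
        have h4 : ((p ^ n : ℕ) : M2 R) * X = ((p : R) ^ n) • X := by
          rw [← nsmul_eq_mul, ← Nat.cast_smul_eq_nsmul R, Nat.cast_pow]
        rw [h4, Matrix.sub_apply, Matrix.add_apply, Matrix.add_apply, Matrix.smul_apply, smul_eq_mul]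
        ring
      rw [h3] at h2
      have h5 : (p : R) ^ n * X i j = ((p : R) ^ n * X i j + (X * X * Y) i j) - (X * X * Y) i j := by ring
      rw [h5]
      exact Ideal.sub_mem _ (Ideal.mem_sup_right h2) (Ideal.mem_sup_left (hXXY i j))
    obtain ⟨a, l, hl, hal⟩ := PRM_period p I hI
    have hper : ∀ i j, X i j - (p : R) ^ l * X i j ∈ I := by
      intro i j
      obtain ⟨c, hc⟩ := Ideal.mem_span_singleton'.1 (hXp a i j)
      rw [← hc]
      have e : c * (p : R) ^ a - (p : R) ^ l * (c * (p : R) ^ a) = c * ((p : R) ^ a - (p : R) ^ (a + l)) := by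
        rw [pow_add]
        ring
      rw [e]
      exact I.mul_mem_left _ hal
    have hper2 : ∀ (m : ℕ) (i j : Fin 2), X i j - (p : R) ^ (l * m) * X i j ∈ I := by
      intro m
      induction m with
      | zero =>
          intro i j
          simp
      | succ m ih =>
          intro i j
          have e : X i j - (p : R) ^ (l * (m + 1)) * X i j =
              (X i j - (p : R) ^ (l * m) * X i j) + (p : R) ^ (l * m) * (X i j - (p : R) ^ l * X i j) := by
            rw [Nat.mul_succ, pow_add]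
            ring
          rw [e]
          exact I.add_mem (ih i j) (I.mul_mem_left _ (hper i j))
    have hstep : ∀ i j, X i j ∈ J * E ⊔ I := by
      intro i j
      obtain ⟨l', rfl⟩ : ∃ l', l = l' + 1 := ⟨l - 1, by omega⟩
      have e : X i j = (X i j - (p : R) ^ ((l' + 1) * n) * X i j) + (p : R) ^ (l' * n) * ((p : R) ^ n * X i j) := by
        rw [show (l' + 1) * n = l' * n + n by ring, pow_add]
        ring
      rw [e]
      exact Ideal.add_mem _ (Ideal.mem_sup_right (hper2 n i j)) (Ideal.mul_mem_left _ _ (hPX i j))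
    have hE1 : E ≤ J * E ⊔ I := by
      rw [hE, Ideal.span_le]
      rintro _ ⟨t, rfl⟩
      rw [← hE]
      exact hstep t.1 t.2
    have hEk : ∀ k : ℕ, E ≤ J ^ k * E ⊔ I := by
      intro k
      induction k with
      | zero =>
          rw [pow_zero, one_mul]
          exact le_sup_left
      | succ k ih =>
          refine ih.trans (sup_le ?_ le_sup_right)
          refine (Ideal.mul_mono_right hE1).trans ?_
          rw [Ideal.mul_sup, ← mul_assoc, ← pow_succ]
          exact sup_le_sup_left (Ideal.mul_le_right : J ^ k * I ≤ I) _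
    obtain ⟨k, hk⟩ := hnil I hI
    intro i j
    have h6 : X i j ∈ J ^ k * E ⊔ I := hEk k (hXE i j)
    have h7 : J ^ k * E ≤ I := (Ideal.mul_le_left : J ^ k * E ≤ J ^ k).trans hk
    have h8 : J ^ k * E ⊔ I ≤ I := sup_le h7 le_rfl
    exact h8 h6
  have hzero : ∀ i j, X i j = 0 := by
    intro i j
    by_contra hne
    obtain ⟨I, hI, hsub⟩ := hbasis ({X i j}ᶜ) (isOpen_compl_singleton.mem_nhds (fun h => hne (Set.mem_singleton_iff.1 h).symm))
    exact hsub (key I hI i j) rfl
  apply Units.ext
  rw [Units.val_one, hg1]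
  have : X = 0 := by
    ext i j
    exact hzero i j
  rw [this, add_zero]

end Pool.Agent.PP2
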